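import Pool.Agent.D0H26.Nil.Stm
import Pool.Agent.TH553.K289.J918

/-!
# Project NIL, module COV: a covering criterion

A continuous surjection `Q : V → M'` of a nilpotent group onto a manifold, left invariant under a
cocompact subgroup and injective on small right translates, is a covering map.
-/

set_option autoImplicit false
set_option linter.unusedSectionVars false

open Filter Topology Set Metric

namespace Pool.Agent.D0H25.NIL

universe u v w

section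

variable {V : Type u} [NormedAddCommGroup V] [NormedSpace ℝ V] [Group V]

/-- the neighbourhood `x * B` -/
def nb (r : ℝ) (x : V) : Set V := {y | ‖x⁻¹ * y‖ < r}

theorem mem_nb {r : ℝ} {x y : V} : y ∈ nb r x ↔ ‖x⁻¹ * y‖ < r := Iff.rfl

theorem self_nb (h1 : (1 : V) = 0) {r : ℝ} (hr : 0 < r) (x : V) : x ∈ nb r x := by
  rw [mem_nb, inv_mul_cancel, h1, norm_zero]
  exact hr

theorem open_nb (hm : Continuous fun p : V × V => p.1 * p.2) (r : ℝ) (x : V) :
    IsOpen (nb r x) := by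
  have : Continuous fun y : V => ‖x⁻¹ * y‖ :=
    (hm.comp (continuous_const.prodMk continuous_id)).norm
  exact this.isOpen_preimage _ isOpen_Iio

theorem shift_nb {r : ℝ} {x y : V} (g : V) : g * y ∈ nb r (g * x) ↔ y ∈ nb r x := by
  rw [mem_nb, mem_nb]
  have : (g * x)⁻¹ * (g * y) = x⁻¹ * y := by group
  rw [this]

theorem exists_small (hm : Continuous fun p : V × V => p.1 * p.2)
    (hi : Continuous fun x : V => x⁻¹) (h1 : (1 : V) = 0) {δ : ℝ} (hδ : 0 < δ) :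
    ∃ r > 0, ∀ v w : V, ‖v‖ < r → ‖w‖ < r → ‖v⁻¹ * w‖ < δ ∧ ‖v * w⁻¹‖ < δ := by
  have c1 : Continuous fun p : V × V => ‖p.1⁻¹ * p.2‖ :=
    (hm.comp ((hi.comp continuous_fst).prodMk continuous_snd)).norm
  have c2 : Continuous fun p : V × V => ‖p.1 * p.2⁻¹‖ :=
    (hm.comp (continuous_fst.prodMk (hi.comp continuous_snd))).norm
  have o := (c1.isOpen_preimage _ (isOpen_Iio (a := δ))).inter
    (c2.isOpen_preimage _ (isOpen_Iio (a := δ)))
  have h0 : ((0 : V), (0 : V)) ∈ (fun p : V × V => ‖p.1⁻¹ * p.2‖) ⁻¹' Iio δ ∩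
      (fun p : V × V => ‖p.1 * p.2⁻¹‖) ⁻¹' Iio δ := by
    constructor
    · show ‖(0 : V)⁻¹ * 0‖ < δ
      rw [← h1, inv_one, mul_one, h1, norm_zero]
      exact hδ
    · show ‖(0 : V) * 0⁻¹‖ < δ
      rw [← h1, inv_one, mul_one, h1, norm_zero]
      exact hδ
  obtain ⟨r, hr, hr2⟩ := Metric.isOpen_iff.1 o _ h0
  refine ⟨r, hr, fun v w hv hw => ?_⟩
  have : (v, w) ∈ ball ((0 : V), (0 : V)) r := by
    rw [mem_ball, Prod.dist_eq, max_lt_iff]
    simp only [dist_zero_right]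
    exact ⟨hv, hw⟩
  exact hr2 this

variable {M' : Type w} {Q : V → M'} {δ r : ℝ}

theorem inj_nb (h1 : (1 : V) = 0) (hq : ∀ x v, ‖v‖ < δ → Q (x * v) = Q x → v = 0)
    (hr : ∀ v w : V, ‖v‖ < r → ‖w‖ < r → ‖v⁻¹ * w‖ < δ ∧ ‖v * w⁻¹‖ < δ) (x : V) :
    InjOn Q (nb r x) := by
  intro y hy z hz h
  have h2 := (hr _ _ hy hz).1
  have h3 : (x⁻¹ * y)⁻¹ * (x⁻¹ * z) = y⁻¹ * z := by group
  rw [h3] at h2
  have h4 := hq y (y⁻¹ * z) h2 (by rw [mul_inv_cancel_left]; exact h.symm)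
  rw [← h1, inv_mul_eq_one] at h4
  exact h4

theorem disj_nb (h1 : (1 : V) = 0) (hq : ∀ x v, ‖v‖ < δ → Q (x * v) = Q x → v = 0)
    (hr : ∀ v w : V, ‖v‖ < r → ‖w‖ < r → ‖v⁻¹ * w‖ < δ ∧ ‖v * w⁻¹‖ < δ) {x y z : V}
    (hx : z ∈ nb r x) (hy : z ∈ nb r y) (hxy : Q x = Q y) : x = y := by
  have h2 := (hr _ _ hx hy).2
  have h3 : x⁻¹ * z * (y⁻¹ * z)⁻¹ = x⁻¹ * y := by group
  rw [h3] at h2
  have h4 := hq x (x⁻¹ * y) h2 (by rw [mul_inv_cancel_left]; exact hxy.symm)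
  rw [← h1, inv_mul_eq_one] at h4
  exact h4

/-- Dimension bound. -/
theorem finrank_le [FiniteDimensional ℝ V] {E' : Type v} [NormedAddCommGroup E']
    [NormedSpace ℝ E'] [FiniteDimensional ℝ E'] [TopologicalSpace M'] [T2Space M']
    [CompactSpace M'] [ChartedSpace E' M'] (hm : Continuous fun p : V × V => p.1 * p.2)
    (hinv : Continuous fun x : V => x⁻¹) (h1 : (1 : V) = 0)
    (hc : Continuous Q) (hs : Function.Surjective Q) (hr0 : 0 < r)
    (hinj : ∀ x, InjOn Q (nb r x)) :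
    Module.finrank ℝ E' ≤ Module.finrank ℝ V := by
  classical
  have hne : Nonempty M' := ⟨Q 0⟩
  have hne' : Nonempty V := ⟨0⟩
  have hK : ∀ x : V, IsCompact ((fun v => x * v) '' closedBall 0 (r / 2)) := fun x =>
    (isCompact_closedBall _ _).image (hm.comp (continuous_const.prodMk continuous_id))
  have hKs : ∀ x : V, (fun v => x * v) '' closedBall 0 (r / 2) ⊆ nb r x := by
    rintro x _ ⟨v, hv, rfl⟩
    rw [mem_closedBall, dist_zero_right] at hv
    rw [mem_nb]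
    show ‖x⁻¹ * (x * v)‖ < r
    rw [inv_mul_cancel_left]
    linarith
  obtain ⟨n, hn⟩ : ∃ n : ℕ, (interior (Q '' ((fun v => TopologicalSpace.denseSeq V n * v) ''
      closedBall 0 (r / 2)))).Nonempty := by
    apply nonempty_interior_of_iUnion_of_closed
    · intro n
      exact ((hK _).image hc).isClosed
    · rw [eq_univ_iff_forall]
      intro y
      obtain ⟨x, rfl⟩ := hs y
      have ho : IsOpen {z : V | ‖z⁻¹ * x‖ < r / 2} := by
        have : Continuous fun z : V => ‖z⁻¹ * x‖ :=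
          (hm.comp (hinv.prodMk continuous_const)).norm
        exact this.isOpen_preimage _ isOpen_Iio
      obtain ⟨z, hz1, n, rfl⟩ := (TopologicalSpace.denseRange_denseSeq V).inter_open_nonempty _ ho
        ⟨x, by
          show ‖x⁻¹ * x‖ < r / 2
          rw [inv_mul_cancel, h1, norm_zero]
          positivity⟩
      refine mem_iUnion.2 ⟨n, x, ⟨(TopologicalSpace.denseSeq V n)⁻¹ * x, ?_, ?_⟩, rfl⟩
      · rw [mem_closedBall, dist_zero_right]
        exact le_of_lt hz1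
      · show TopologicalSpace.denseSeq V n * ((TopologicalSpace.denseSeq V n)⁻¹ * x) = x
        rw [mul_inv_cancel_left]
  obtain ⟨c, hcdef⟩ : ∃ c, c = TopologicalSpace.denseSeq V n := ⟨_, rfl⟩
  rw [← hcdef] at hn
  obtain ⟨C0, hC0⟩ : ∃ C0, C0 = (fun v => c * v) '' closedBall 0 (r / 2) := ⟨_, rfl⟩
  have hC0c : IsCompact C0 := by rw [hC0]; exact hK c
  have hinj0 : InjOn Q C0 := by rw [hC0]; exact (hinj c).mono (hKs c)
  rw [← hC0] at hn
  obtain ⟨K, hK⟩ : ∃ K, K = Q '' C0 := ⟨_, rfl⟩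
  rw [← hK] at hn
  obtain ⟨y0, hy0⟩ := hn
  obtain ⟨g, hg⟩ : ∃ g, g = Function.invFunOn Q C0 := ⟨_, rfl⟩
  have hgK : ∀ y ∈ K, g y ∈ C0 ∧ Q (g y) = y := by
    intro y hy
    rw [hK] at hy
    rw [hg]
    exact ⟨Function.invFunOn_mem hy, Function.invFunOn_eq hy⟩
  have hgc : ContinuousOn g K := by
    rw [continuousOn_iff_isClosed]
    intro t ht
    refine ⟨Q '' (C0 ∩ t), ((hC0c.inter_right ht).image hc).isClosed, ?_⟩
    ext y
    constructor
    · rintro ⟨h1, h2⟩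
      exact ⟨⟨g y, ⟨(hgK y h2).1, h1⟩, (hgK y h2).2⟩, h2⟩
    · rintro ⟨⟨x, ⟨hx1, hx2⟩, hx3⟩, h2⟩
      refine ⟨?_, h2⟩
      have h3 : g y = x := hinj0 (hgK y h2).1 hx1 (by rw [(hgK y h2).2, hx3])
      show g y ∈ t
      rw [h3]
      exact hx2
  obtain ⟨e, he⟩ : ∃ e, e = chartAt E' y0 := ⟨_, rfl⟩
  have hye : y0 ∈ e.source := by rw [he]; exact mem_chart_source E' y0
  have hO : IsOpen (e.target ∩ e.symm ⁻¹' interior K) :=
    e.isOpen_inter_preimage_symm isOpen_interior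
  refine Pool.Agent.W964.LieExp.finrank_le_of_injOn _ hO (e y0) ?_ (fun v => g (e.symm v)) ?_ ?_
  · refine ⟨e.map_source hye, ?_⟩
    show e.symm (e y0) ∈ interior K
    rw [e.left_inv hye]
    exact hy0
  · refine hgc.comp (e.continuousOn_symm.mono inter_subset_left) ?_
    intro v hv
    exact interior_subset hv.2
  · intro a ha b hb hab
    have h1 : e.symm a = e.symm b := by
      rw [← (hgK _ (interior_subset ha.2)).2, ← (hgK _ (interior_subset hb.2)).2]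
      exact congrArg Q hab
    exact e.symm.injOn ha.1 hb.1 h1

/-- Covering. -/
theorem cov_of_open [FiniteDimensional ℝ V] [TopologicalSpace M'] [T2Space M']
    (hm : Continuous fun p : V × V => p.1 * p.2) (h1 : (1 : V) = 0)
    (Γ : Subgroup V) (R : ℝ) (hR : ∀ x, ∃ γ ∈ Γ, ‖γ * x‖ ≤ R)
    (hc : Continuous Q) (hs : Function.Surjective Q) (ho : IsOpenMap Q)
    (hp : ∀ γ ∈ Γ, ∀ x, Q (γ * x) = Q x) (hr0 : 0 < r)
    (hinj : ∀ x, InjOn Q (nb r x))
    (hdis : ∀ x y z : V, z ∈ nb r x → z ∈ nb r y → Q x = Q y → x = y) :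
    IsCoveringMap Q ∧ ∀ a, ∃ S : Finset V, ∀ x, Q x = a → ∃ s ∈ S, ∃ γ ∈ Γ, x = γ * s := by
  classical
  have hshift : ∀ x : V, ∃ γ ∈ Γ, γ * x ∈ closedBall (0 : V) R := by
    intro x
    obtain ⟨γ, h2, h3⟩ := hR x
    exact ⟨γ, h2, by rwa [mem_closedBall, dist_zero_right]⟩
  have hdisc : ∀ y, DiscreteTopology (Q ⁻¹' {y}) := by
    intro y
    rw [discreteTopology_subtype_iff']
    intro x hx
    refine ⟨nb r x, open_nb hm r x, ?_⟩
    ext z
    constructor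
    · rintro ⟨hz1, hz2⟩
      have h2 : z = x := hinj x hz1 (self_nb h1 hr0 x) (by
        rw [show Q z = y from hz2, show Q x = y from hx])
      exact h2
    · rintro rfl
      exact ⟨self_nb h1 hr0 _, hx⟩
  have hfin : ∀ y, (closedBall (0 : V) R ∩ Q ⁻¹' {y}).Finite := by
    intro y
    have hcl : IsClosed (Q ⁻¹' {y}) := isClosed_singleton.preimage hc
    have hcpt : IsCompact (closedBall (0 : V) R ∩ Q ⁻¹' {y}) :=
      (isCompact_closedBall _ _).inter_right hcl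
    refine hcpt.finite ?_
    exact ⟨DiscreteTopology.of_subset (hdisc y) inter_subset_right⟩
  refine ⟨?_, fun a => ⟨(hfin a).toFinset, fun x hx => ?_⟩⟩
  swap
  · obtain ⟨γ, h2, h3⟩ := hshift x
    refine ⟨γ * x, ?_, γ⁻¹, Γ.inv_mem h2, by rw [inv_mul_cancel_left]⟩
    rw [Set.Finite.mem_toFinset]
    exact ⟨h3, by
      show Q (γ * x) ∈ ({a} : Set M')
      rw [hp γ h2]
      exact hx⟩
  intro y
  have hdy := hdisc y
  obtain ⟨x0, hx0⟩ := hs y
  have hball : ∀ (i : V), ∀ γ ∈ Γ, Q '' nb r (γ * i) ⊆ Q '' nb r i := by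
    rintro i γ hγ _ ⟨x, hx, rfl⟩
    refine ⟨γ⁻¹ * x, ?_, hp γ⁻¹ (Γ.inv_mem hγ) x⟩
    rw [← shift_nb γ, mul_inv_cancel_left]
    exact hx
  obtain ⟨C, hC⟩ : ∃ C, C = closedBall (0 : V) R \ ⋃ i ∈ Q ⁻¹' {y}, nb r i := ⟨_, rfl⟩
  have hCc : IsCompact C := by
    rw [hC]
    exact (isCompact_closedBall _ _).diff (isOpen_biUnion fun _ _ => open_nb hm r _)
  obtain ⟨O, hV⟩ : ∃ O, O = (Q '' C)ᶜ ∩ ⋂ i ∈ closedBall (0 : V) R ∩ Q ⁻¹' {y},
      Q '' nb r i := ⟨_, rfl⟩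
  have hVo : IsOpen O := by
    rw [hV]
    exact (hCc.image hc).isClosed.isOpen_compl.inter
      ((hfin y).isOpen_biInter fun i _ => ho _ (open_nb hm r i))
  have hyV : y ∈ O := by
    rw [hV]
    constructor
    · rintro ⟨x, hx, hxy⟩
      rw [hC] at hx
      exact hx.2 (mem_biUnion (show x ∈ Q ⁻¹' {y} from hxy) (self_nb h1 hr0 x))
    · rw [mem_iInter₂]
      intro i hi'
      exact ⟨i, self_nb h1 hr0 i, hi'.2⟩
  have hVb : ∀ i ∈ Q ⁻¹' {y}, O ⊆ Q '' nb r i := by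
    intro i hi' v hv
    obtain ⟨γ, hγ, hz⟩ := hshift i
    refine hball i γ hγ ?_
    rw [hV] at hv
    exact mem_iInter₂.1 hv.2 _ ⟨hz, by
      show Q _ ∈ ({y} : Set M')
      rw [hp γ hγ]
      exact hi'⟩
  have hex : Q ⁻¹' O ⊆ ⋃ i : Q ⁻¹' {y}, nb r (i : V) := by
    intro x hx
    obtain ⟨γ, hγ, hz⟩ := hshift x
    have h2 : Q (γ * x) ∈ O := by rw [hp γ hγ]; exact hx
    by_cases h3 : γ * x ∈ ⋃ i ∈ Q ⁻¹' {y}, nb r i
    · obtain ⟨i, hi1, hi2⟩ := mem_iUnion₂.1 h3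
      refine mem_iUnion.2 ⟨⟨γ⁻¹ * i, ?_⟩, ?_⟩
      · show Q _ ∈ ({y} : Set M')
        rw [hp γ⁻¹ (Γ.inv_mem hγ)]
        exact hi1
      · show x ∈ nb r (γ⁻¹ * i)
        rw [← shift_nb γ, mul_inv_cancel_left]
        exact hi2
    · exfalso
      rw [hV] at h2
      exact h2.1 ⟨_, by rw [hC]; exact ⟨hz, h3⟩, rfl⟩
  have hn1 : Nonempty (M' → V) := ⟨fun _ => 0⟩
  have hn2 : Nonempty (Q ⁻¹' {y}) := ⟨⟨x0, hx0⟩⟩
  refine IsEvenlyCovered.of_trivialization (t := hVo.trivializationDiscrete (f := Q)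
    (fun i : Q ⁻¹' {y} => nb r (i : V)) O
    (fun i W hW => ⟨fun h => (h.preimage hc).inter (open_nb hm r _), fun h => ?_⟩)
    (fun i => hinj i)
    (fun i v hv => hVb i i.2 hv) ?_ hex) hyV
  · have h2 : Q '' (Q ⁻¹' W ∩ nb r (i : V)) = W := by
      ext w
      constructor
      · rintro ⟨x, ⟨hx, -⟩, rfl⟩
        exact hx
      · intro hw
        obtain ⟨x, hx, rfl⟩ := hVb i i.2 (hW hw)
        exact ⟨x, ⟨hw, hx⟩, rfl⟩
    rw [← h2]
    exact ho _ h
  · intro i j hij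
    show Disjoint (nb r (i : V)) (nb r (j : V))
    rw [Set.disjoint_left]
    intro z hz1 hz2
    apply hij
    apply Subtype.ext
    refine hdis _ _ z hz1 hz2 ?_
    rw [show Q (i : V) = y from i.2, show Q (j : V) = y from j.2]

end

theorem cov : Pool.Agent.D0H26.Nil.S_COV.{u, v, w} := by
  intro V _ _ _ _ hm hinv h1 Γ R hR E' _ _ _ M' _ _ _ _ Q hc hs hp δ hδ hq
  obtain ⟨r, hr0, hr⟩ := exists_small hm hinv h1 hδ
  have hinj : ∀ x, InjOn Q (nb r x) := fun x => inj_nb h1 hq hr x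
  have ho : IsOpenMap Q := by
    rw [isOpenMap_iff_nhds_le]
    intro x s hs'
    rw [Filter.mem_map] at hs'
    refine Filter.mem_of_superset (Pool.Agent.TH553.K289.image_nhds
      (finrank_le (E' := E') hm hinv h1 hc hs hr0 hinj) hc
      ((open_nb hm r x).mem_nhds (self_nb h1 hr0 x)) (hinj x) hs') ?_
    exact image_preimage_subset Q s
  exact cov_of_open hm h1 Γ R hR hc hs ho hp hr0 hinj
    fun x y z hx hy hxy => disj_nb h1 hq hr hx hy hxy

end Pool.Agent.D0H25.NIL
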