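import Pool.Agent.D0H26.Nil.Stm

/-!
# Project NIL, module SPLIT: the product decomposition `N = Nˢ Nᵘ`
-/

set_option autoImplicit false

open Filter Topology Set Metric

namespace Pool.Agent.D0H25.NIL

open Pool.Agent.D0H26.Fac (HSp subV)
open Pool.Agent.D0H26.Nil

universe u

section

variable {V : Type u} [NormedAddCommGroup V] [NormedSpace ℝ V]

theorem iter_u {T : V ≃ₗ[ℝ] V} (H : HSp T) (n : ℕ) (v : V) :
    T.symm^[n] (H.u (T^[n] v)) = H.u v := by
  have h1 : ∀ (n : ℕ) (v : V), H.u (T^[n] v) = T^[n] (H.u v) := by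
    intro n
    induction n with
    | zero => intro v; rfl
    | succ n ih =>
      intro v
      rw [Function.iterate_succ_apply, Function.iterate_succ_apply, ih, H.cu]
  rw [h1]
  exact Function.LeftInverse.iterate (fun x => T.symm_apply_apply x) n (H.u v)

theorem tendsto_pow (H : ℝ) (l : ℝ) (h0 : 0 ≤ l) (h1 : l < 1) :
    Tendsto (fun n : ℕ => H * l ^ n) atTop (𝓝 0) := by
  have := (tendsto_pow_atTop_nhds_zero_of_lt_one h0 h1).const_mul H
  rwa [mul_zero] at this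

theorem u_zero {T : V ≃ₗ[ℝ] V} (H : HSp T) (v : V)
    (h : Tendsto (fun n : ℕ => T^[n] v) atTop (𝓝 0)) : H.u v = 0 := by
  have h1 : ∀ n : ℕ, ‖H.u v‖ ≤ H.C * H.l ^ n * ‖T^[n] v‖ := by
    intro n
    have := H.bu n (T^[n] v)
    rwa [iter_u] at this
  have h2 : Tendsto (fun n : ℕ => H.C * H.l ^ n * ‖T^[n] v‖) atTop (𝓝 0) := by
    have := (tendsto_pow H.C H.l H.hl0 H.hl1).mul h.norm
    rwa [norm_zero, mul_zero] at this
  exact norm_le_zero_iff.1 (ge_of_tendsto' h2 h1)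

theorem tendsto_s {T : V ≃ₗ[ℝ] V} (H : HSp T) (v : V) :
    Tendsto (fun n : ℕ => T^[n] (H.s v)) atTop (𝓝 0) := by
  rw [tendsto_zero_iff_norm_tendsto_zero]
  have h2 : Tendsto (fun n : ℕ => H.C * H.l ^ n * ‖v‖) atTop (𝓝 0) := by
    have := (tendsto_pow H.C H.l H.hl0 H.hl1).mul_const ‖v‖
    rwa [zero_mul] at this
  exact squeeze_zero (fun n => norm_nonneg _) (fun n => H.bs n v) h2

theorem us {T : V ≃ₗ[ℝ] V} (H : HSp T) (v : V) : H.u (H.s v) = 0 := u_zero H _ (tendsto_s H v)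

theorem tendsto_iff {T : V ≃ₗ[ℝ] V} (H : HSp T) (v : V) :
    Tendsto (fun n : ℕ => T^[n] v) atTop (𝓝 0) ↔ H.u v = 0 := by
  refine ⟨u_zero H v, fun h => ?_⟩
  have h1 := H.add v
  rw [h, add_zero] at h1
  rw [← h1]
  exact tendsto_s H v

theorem su {T : V ≃ₗ[ℝ] V} (H : HSp T) (v : V) : H.s (H.u v) = 0 := us H.swap v

variable [Group V]

theorem iter_mul {T : V ≃ₗ[ℝ] V} (hT : ∀ x y, T (x * y) = T x * T y) (n : ℕ) (x y : V) :
    T^[n] (x * y) = T^[n] x * T^[n] y := by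
  induction n with
  | zero => rfl
  | succ n ih =>
    rw [Function.iterate_succ_apply', Function.iterate_succ_apply', Function.iterate_succ_apply',
      ih, hT]

theorem u_mul (D : NB V) (T : V ≃ₗ[ℝ] V) (H : HSp T) (hT : ∀ x y, T (x * y) = T x * T y)
    (x y : V) (hx : H.u x = 0) (hy : H.u y = 0) : H.u (x * y) = 0 := by
  rw [← tendsto_iff] at hx hy ⊢
  have h1 : Tendsto (fun n : ℕ => (T^[n] x, T^[n] y)) atTop (𝓝 ((0 : V), (0 : V))) :=
    hx.prodMk_nhds hy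
  have h2 := (D.cmul.tendsto ((0 : V), (0 : V))).comp h1
  have h3 : (0 : V) * 0 = 0 := by
    rw [← D.one_eq, mul_one]
  simp only [h3] at h2
  refine h2.congr fun n => ?_
  exact (iter_mul hT n x y).symm

end

theorem split (hL : S_LIN2.{u}) : S_SPLIT.{u} := by
  intro V _ _ _ _ D
  have hu : ∀ x y, D.H.u x = 0 → D.H.u y = 0 → D.H.u (x * y) = 0 := fun x y hx hy =>
    u_mul D D.T D.H D.Tmul x y hx hy
  have hs : ∀ x y, D.H.s x = 0 → D.H.s y = 0 → D.H.s (x * y) = 0 := fun x y hx hy =>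
    u_mul D D.T.symm D.H.swap D.Tsmul x y hx hy
  refine ⟨hu, hs, ?_⟩
  have cs : Continuous D.H.s := D.H.s.continuous_of_finiteDimensional
  have cu : Continuous D.H.u := D.H.u.continuous_of_finiteDimensional
  have lin : ∀ j, ∀ x ∈ D.W j, D.H.s x ∈ D.W j ∧ D.H.u x ∈ D.W j := fun j x hx =>
    ⟨(hL V D.T D.H (D.W j) (D.WT j) x hx).1, (hL V D.T D.H (D.W j) (D.WT j) x hx).2.1⟩
  have key : ∀ i, ∃ p w q : V → V, Continuous p ∧ Continuous w ∧ Continuous q ∧
      (∀ x, D.H.u (p x) = 0 ∧ D.H.s (q x) = 0 ∧ p x * w x * q x = x ∧ w x ∈ D.W i) ∧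
      ∀ j, ∀ x ∈ D.W j, p x ∈ D.W j ∧ w x ∈ D.W j ∧ q x ∈ D.W j := by
    intro i
    induction i with
    | zero =>
      refine ⟨fun _ => 1, id, fun _ => 1, continuous_const, continuous_id, continuous_const,
        fun x => ⟨?_, ?_, ?_, ?_⟩, fun j x hx => ⟨D.W_one j, hx, D.W_one j⟩⟩
      · simp only [D.one_eq, map_zero]
      · simp only [D.one_eq, map_zero]
      · simp only [one_mul, mul_one, id]
      · rw [D.W0]
        exact Submodule.mem_top
    | succ i ih =>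
      obtain ⟨p, w, q, cp, cw, cq, h1, h2⟩ := ih
      refine ⟨fun x => p x * D.H.s (w x), fun x => (D.H.s (w x))⁻¹ * w x * (D.H.u (w x))⁻¹,
        fun x => D.H.u (w x) * q x, ?_, ?_, ?_, fun x => ⟨?_, ?_, ?_, ?_⟩, fun j x hx => ?_⟩
      · exact D.cmul.comp (cp.prodMk (cs.comp cw))
      · exact D.cmul.comp ((D.cmul.comp ((D.cinv.comp (cs.comp cw)).prodMk cw)).prodMk
          (D.cinv.comp (cu.comp cw)))
      · exact D.cmul.comp ((cu.comp cw).prodMk cq)
      · exact hu _ _ (h1 x).1 (us D.H _)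
      · exact hs _ _ (su D.H _) (h1 x).2.1
      · have := (h1 x).2.2.1
        calc p x * D.H.s (w x) * ((D.H.s (w x))⁻¹ * w x * (D.H.u (w x))⁻¹) *
              (D.H.u (w x) * q x) = p x * w x * q x := by group
          _ = x := this
      · have hw := (h1 x).2.2.2
        have ha := (lin i _ hw).1
        have hb := (lin i _ hw).2
        have e1 := D.W_add (D.H.s (w x))⁻¹ hw
        have e2 := D.W_add ((D.H.s (w x))⁻¹ * w x) (D.W_inv hb)
        have e3 := (D.W (i + 1)).add_mem e2 e1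
        have e4 : (D.H.s (w x))⁻¹ * w x * (D.H.u (w x))⁻¹ -
            ((D.H.s (w x))⁻¹ * w x + (D.H.u (w x))⁻¹) +
            ((D.H.s (w x))⁻¹ * w x - ((D.H.s (w x))⁻¹ + w x)) =
            (D.H.s (w x))⁻¹ * w x * (D.H.u (w x))⁻¹ := by
          have h5 := D.H.add (w x)
          have h6 : (D.H.s (w x))⁻¹ = - D.H.s (w x) := D.inv_eq _
          have h7 : (D.H.u (w x))⁻¹ = - D.H.u (w x) := D.inv_eq _
          have h8 : (D.H.u (w x))⁻¹ + ((D.H.s (w x))⁻¹ + w x) = 0 := by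
            rw [h6, h7]
            nth_rw 3 [← h5]
            abel
          calc (D.H.s (w x))⁻¹ * w x * (D.H.u (w x))⁻¹ -
            ((D.H.s (w x))⁻¹ * w x + (D.H.u (w x))⁻¹) +
            ((D.H.s (w x))⁻¹ * w x - ((D.H.s (w x))⁻¹ + w x)) =
              (D.H.s (w x))⁻¹ * w x * (D.H.u (w x))⁻¹ -
                ((D.H.u (w x))⁻¹ + ((D.H.s (w x))⁻¹ + w x)) := by abel
            _ = _ := by rw [h8, sub_zero]
        rw [e4] at e3
        exact e3
      · obtain ⟨k1, k2, k3⟩ := h2 j x hx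
        obtain ⟨l1, l2⟩ := lin j _ k2
        exact ⟨D.W_mul k1 l1, D.W_mul (D.W_mul (D.W_inv l1) k2) (D.W_inv l2), D.W_mul l2 k3⟩
  obtain ⟨p, w, q, cp, cw, cq, h1, h2⟩ := key D.n
  refine ⟨p, q, cp, cq, fun x => ⟨(h1 x).1, (h1 x).2.1, ?_⟩, fun i x hx =>
    ⟨(h2 i x hx).1, (h2 i x hx).2.2⟩⟩
  have h3 := (h1 x).2.2.2
  rw [D.Wn, Submodule.mem_bot] at h3
  have h4 := (h1 x).2.2.1
  rwa [h3, ← D.one_eq, mul_one] at h4

end Pool.Agent.D0H25.NIL
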